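import Mathlib
import Pool.Agent.Results.MP_a87573_co.DistinctRoots

/-!
Coefficients of edge cover polynomials.
-/

set_option autoImplicit false
set_option linter.unusedSectionVars false

namespace Pool.Agent.K6.H74.EC

open Finset Polynomial
open Pool.Agent.Results.MP_a87573_co.DistinctRoots

variable {V : Type} [Fintype V] [DecidableEq V] (G : SimpleGraph V) [DecidableRel G.Adj]

lemma coeff_E (k : ℕ) : (edgeCoverPoly G).coeff k = coverCount G k := by
  rw [poly_eq_sum, finsetSum_coeff]
  simp only [coeff_X_pow]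
  rw [← sum_filter, sum_const, coverCount, nsmul_eq_mul, mul_one]
  congr 2
  ext S
  simp only [mem_filter]
  constructor
  · rintro ⟨⟨h1, h2⟩, h3⟩; exact ⟨h1, h3.symm, h2⟩
  · rintro ⟨h1, h2, h3⟩; exact ⟨⟨h1, h3⟩, h2.symm⟩

lemma eval_one_E : (edgeCoverPoly G).eval 1 =
    (#{S ∈ G.edgeFinset.powerset | IsEdgeCovering S} : ℂ) := by
  rw [poly_eq_sum, eval_finsetSum]
  simp

variable {G}

lemma coverCount_compl (k : ℕ) (hk : k ≤ #G.edgeFinset) :
    coverCount G (#G.edgeFinset - k) =
      #{D ∈ G.edgeFinset.powersetCard k | IsEdgeCovering (G.edgeFinset \ D)} := by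
  rw [coverCount]
  refine card_bij (fun S _ => G.edgeFinset \ S) ?_ ?_ ?_
  · intro S hS
    rw [mem_filter, mem_powerset] at hS
    obtain ⟨h1, h2, h3⟩ := hS
    rw [mem_filter, mem_powersetCard]
    refine ⟨⟨sdiff_subset, ?_⟩, ?_⟩
    · rw [card_sdiff_of_subset h1]; omega
    · rw [Finset.sdiff_sdiff_eq_self h1]; exact h3
  · intro S hS S' hS' h
    rw [mem_filter, mem_powerset] at hS hS'
    rw [← Finset.sdiff_sdiff_eq_self hS.1, h, Finset.sdiff_sdiff_eq_self hS'.1]
  · intro D hD
    rw [mem_filter, mem_powersetCard] at hD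
    refine ⟨G.edgeFinset \ D, ?_, Finset.sdiff_sdiff_eq_self hD.1.1⟩
    rw [mem_filter, mem_powerset]
    refine ⟨sdiff_subset, ?_, hD.2⟩
    rw [card_sdiff_of_subset hD.1.1]; omega

lemma incidence_subset_edges (v : V) : G.incidenceFinset v ⊆ G.edgeFinset := by
  intro e he
  rw [SimpleGraph.mem_incidenceFinset] at he
  rw [SimpleGraph.mem_edgeFinset]
  exact he.1

lemma not_cov_iff (D : Finset (Sym2 V)) :
    ¬ IsEdgeCovering (G.edgeFinset \ D) ↔ ∃ v, G.incidenceFinset v ⊆ D := by
  unfold IsEdgeCovering
  push Not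
  refine exists_congr fun v => ?_
  constructor
  · intro h e he
    by_contra hcon
    refine h e (mem_sdiff.2 ⟨incidence_subset_edges v he, hcon⟩) ?_
    rw [SimpleGraph.mem_incidenceFinset] at he
    exact he.2
  · intro h e he hve
    rw [mem_sdiff] at he
    refine he.2 (h ?_)
    rw [SimpleGraph.mem_incidenceFinset]
    exact ⟨SimpleGraph.mem_edgeFinset.1 he.1, hve⟩

lemma coverCount_zero' (hdeg : ∀ v, 2 ≤ G.degree v) : coverCount G (#G.edgeFinset) = 1 := by
  have h := coverCount_compl (G := G) 0 (Nat.zero_le _)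
  rw [Nat.sub_zero] at h
  rw [h, filter_true_of_mem]
  · simp
  · intro D hD
    rw [mem_powersetCard] at hD
    by_contra hcon
    rw [not_cov_iff] at hcon
    obtain ⟨v, hv⟩ := hcon
    have := card_le_card hv
    rw [SimpleGraph.card_incidenceFinset_eq_degree] at this
    have := hdeg v
    omega

lemma coverCount_one (hdeg : ∀ v, 2 ≤ G.degree v) (hm : 1 ≤ #G.edgeFinset) :
    coverCount G (#G.edgeFinset - 1) = #G.edgeFinset := by
  rw [coverCount_compl 1 hm, filter_true_of_mem]
  · simp
  · intro D hD
    rw [mem_powersetCard] at hD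
    by_contra hcon
    rw [not_cov_iff] at hcon
    obtain ⟨v, hv⟩ := hcon
    have := card_le_card hv
    rw [SimpleGraph.card_incidenceFinset_eq_degree] at this
    have := hdeg v
    omega

lemma coverCount_two (hdeg : ∀ v, 2 ≤ G.degree v) (hm : 2 ≤ #G.edgeFinset) :
    coverCount G (#G.edgeFinset - 2) + #{v | G.degree v = 2} = (#G.edgeFinset).choose 2 := by
  rw [coverCount_compl 2 hm, ← card_powersetCard]
  have h1 : #{D ∈ G.edgeFinset.powersetCard 2 | ¬ IsEdgeCovering (G.edgeFinset \ D)} =
      #{v | G.degree v = 2} := by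
    symm
    refine card_bij (fun v _ => G.incidenceFinset v) ?_ ?_ ?_
    · intro v hv
      rw [mem_filter] at hv
      rw [mem_filter, mem_powersetCard]
      refine ⟨⟨incidence_subset_edges v, ?_⟩, ?_⟩
      · rw [SimpleGraph.card_incidenceFinset_eq_degree]; exact hv.2
      · rw [not_cov_iff]; exact ⟨v, subset_rfl⟩
    · intro v hv w hw h
      by_contra hvw
      rw [mem_filter] at hv hw
      have h2 : #(G.incidenceFinset v) = 2 := by
        rw [SimpleGraph.card_incidenceFinset_eq_degree]; exact hv.2
      obtain ⟨e, f, hef, h3⟩ := card_eq_two.1 h2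
      have he : e ∈ G.incidenceFinset v := by rw [h3]; simp
      have hf : f ∈ G.incidenceFinset v := by rw [h3]; simp
      have he' : e ∈ G.incidenceFinset w := by rw [← h]; exact he
      have hf' : f ∈ G.incidenceFinset w := by rw [← h]; exact hf
      rw [SimpleGraph.mem_incidenceFinset] at he hf he' hf'
      refine hef ?_
      rw [(Sym2.mem_and_mem_iff hvw).1 ⟨he.2, he'.2⟩, (Sym2.mem_and_mem_iff hvw).1 ⟨hf.2, hf'.2⟩]
    · intro D hD
      rw [mem_filter, mem_powersetCard, not_cov_iff] at hD
      obtain ⟨⟨hD1, hD2⟩, v, hv⟩ := hD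
      have h2 := card_le_card hv
      rw [SimpleGraph.card_incidenceFinset_eq_degree] at h2
      have h3 := hdeg v
      refine ⟨v, mem_filter.2 ⟨mem_univ _, by omega⟩, ?_⟩
      refine eq_of_subset_of_card_le hv ?_
      rw [SimpleGraph.card_incidenceFinset_eq_degree]
      omega
  rw [← h1]
  exact card_filter_add_card_filter_not _

/-- the case of five vertices and six edges -/
lemma eval_neg_one (hdeg : ∀ v, 2 ≤ G.degree v) (hn : Fintype.card V = 5)
    (hm : #G.edgeFinset = 6) : (edgeCoverPoly G).eval (-1) ≠ -1 := by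
  have h1 : (edgeCoverPoly G).eval (-1) =
      (#{A : Finset V | away G A = ∅ ∧ Even #A} : ℂ) - #{A : Finset V | away G A = ∅ ∧ Odd #A} := by
    rw [poly_incl_excl, eval_finsetSum]
    have h2 : ∀ A : Finset V, eval (-1 : ℂ) ((-1 : ℂ[X]) ^ #A * (1 + X) ^ #(away G A)) =
        (if away G A = ∅ ∧ Even #A then 1 else 0) - (if away G A = ∅ ∧ Odd #A then 1 else 0) := by
      intro A
      rw [eval_mul, eval_pow, eval_pow, eval_add, eval_one, eval_X, eval_neg, eval_one,
        add_neg_cancel]
      by_cases h3 : away G A = ∅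
      · rw [h3, card_empty, pow_zero, mul_one]
        rcases Nat.even_or_odd #A with h4 | h4
        · have : ¬ Odd #A := Nat.not_odd_iff_even.2 h4
          simp [h4, this]
        · have : ¬ Even #A := Nat.not_even_iff_odd.2 h4
          simp [h4, this]
      · have : #(away G A) ≠ 0 := by rw [Ne, card_eq_zero]; exact h3
        simp [h3]
    rw [sum_congr rfl fun A _ => h2 A, sum_sub_distrib, ← sum_filter, ← sum_filter]
    simp
  have h2 : 5 ≤ #{A : Finset V | away G A = ∅ ∧ Even #A} := by
    have h3 : #(univ.powersetCard 4 : Finset (Finset V)) = 5 := by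
      rw [card_powersetCard, card_univ, hn]; rfl
    rw [← h3]
    apply card_le_card
    intro A hA
    rw [mem_powersetCard] at hA
    rw [mem_filter]
    refine ⟨mem_univ _, ?_, by rw [hA.2]; decide⟩
    have h4 : #Aᶜ = 1 := by rw [card_compl, hn, hA.2]
    obtain ⟨u, hu⟩ := card_eq_one.1 h4
    rw [away, filter_eq_empty_iff]
    intro e he hcon
    induction e with
    | h p q =>
      have hp : p ∈ Aᶜ := by
        rw [mem_compl]; exact fun h => hcon p h (Sym2.mem_mk_left _ _)
      have hq : q ∈ Aᶜ := by
        rw [mem_compl]; exact fun h => hcon q h (Sym2.mem_mk_right _ _)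
      rw [hu, mem_singleton] at hp hq
      rw [SimpleGraph.mem_edgeFinset, SimpleGraph.mem_edgeSet, hp, hq] at he
      exact G.irrefl he
  have h3 : #{A : Finset V | away G A = ∅ ∧ Odd #A} ≤ 5 := by
    set W : Finset (Finset V) := G.edgeFinset.image fun e => univ \ e.toFinset with hW
    have hWc : #W = 6 := by
      rw [hW, card_image_of_injOn, hm]
      intro e _ f _ hef
      have : e.toFinset = f.toFinset := by
        have hef' : univ \ e.toFinset = univ \ f.toFinset := hef
        have h : univ \ (univ \ e.toFinset) = univ \ (univ \ f.toFinset) := by rw [hef']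
        rwa [Finset.sdiff_sdiff_eq_self (subset_univ _), Finset.sdiff_sdiff_eq_self (subset_univ _)] at h
      refine Sym2.ext fun x => ?_
      rw [← Sym2.mem_toFinset, this, Sym2.mem_toFinset]
    have hW3 : W ⊆ (univ.powersetCard 3 : Finset (Finset V)) := by
      intro A hA
      rw [hW, mem_image] at hA
      obtain ⟨e, he, rfl⟩ := hA
      rw [mem_powersetCard]
      refine ⟨subset_univ _, ?_⟩
      rw [card_sdiff_of_subset (subset_univ _), card_univ, hn,
        Sym2.card_toFinset_of_not_isDiag]
      rw [SimpleGraph.mem_edgeFinset] at he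
      exact G.not_isDiag_of_mem_edgeSet he
    have h10 : #(univ.powersetCard 3 : Finset (Finset V)) = 10 := by
      rw [card_powersetCard, card_univ, hn]; rfl
    have h4 : ({A : Finset V | away G A = ∅ ∧ Odd #A} : Finset (Finset V)) ⊆
        {univ} ∪ ((univ.powersetCard 3 : Finset (Finset V)) \ W) := by
      intro A hA
      rw [mem_filter] at hA
      obtain ⟨_, hA1, hA2⟩ := hA
      rw [mem_union, mem_singleton]
      have h5 : #A ≤ 5 := by rw [← hn]; exact card_le_univ A
      obtain ⟨j, hj⟩ := hA2
      rcases (by omega : #A = 5 ∨ #A = 3 ∨ #A = 1) with h6 | h6 | h6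
      · left
        exact (card_eq_iff_eq_univ A).1 (by rw [h6, hn])
      · right
        rw [mem_sdiff, mem_powersetCard]
        refine ⟨⟨subset_univ _, h6⟩, ?_⟩
        intro h7
        rw [hW, mem_image] at h7
        obtain ⟨e, he, rfl⟩ := h7
        rw [away, filter_eq_empty_iff] at hA1
        refine hA1 he fun v hv hve => ?_
        rw [mem_sdiff, Sym2.mem_toFinset] at hv
        exact hv.2 hve
      · exfalso
        obtain ⟨u, rfl⟩ := card_eq_one.1 h6
        have h7 : ∃ v : V, v ≠ u := by
          have : Nontrivial V := Fintype.one_lt_card_iff_nontrivial.1 (by omega)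
          exact exists_ne u
        obtain ⟨v, hv⟩ := h7
        have h8 : 1 < #(G.neighborFinset v) := by
          rw [SimpleGraph.card_neighborFinset_eq_degree]; exact hdeg v
        obtain ⟨w, hw, hwu⟩ := exists_mem_ne h8 u
        rw [SimpleGraph.mem_neighborFinset] at hw
        rw [away, filter_eq_empty_iff] at hA1
        have h9 : s(v, w) ∈ G.edgeFinset := by
          rw [SimpleGraph.mem_edgeFinset, SimpleGraph.mem_edgeSet]; exact hw
        refine hA1 h9 fun x hx hxe => ?_
        rw [mem_singleton] at hx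
        rw [Sym2.mem_iff] at hxe
        rcases hxe with h | h
        · exact hv (by rw [← h, hx])
        · exact hwu (by rw [← h, hx])
    refine (card_le_card h4).trans ((card_union_le _ _).trans ?_)
    rw [card_singleton, card_sdiff_of_subset hW3, h10, hWc]
  rw [h1]
  intro h4
  have h5 : (#{A : Finset V | away G A = ∅ ∧ Even #A} : ℂ) + 1 =
      #{A : Finset V | away G A = ∅ ∧ Odd #A} := by
    linear_combination h4
  have h6 : #{A : Finset V | away G A = ∅ ∧ Even #A} + 1 =
      #{A : Finset V | away G A = ∅ ∧ Odd #A} := by exact_mod_cast h5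
  omega

end Pool.Agent.K6.H74.EC
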