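import Mathlib
import Pool.Agent.H168DD.TB
import Pool.Agent.Results.MP_a87573_co.DistinctRoots

/-!
Graphs all of whose edge coverings are large have a barrier (Gallai, Tutte, Berge).
-/

set_option autoImplicit false

namespace Pool.Agent.K6.H74.EC

open Finset
open Pool.Agent.Results.MP_a87573_co.DistinctRoots

/-- Parity form of the Tutte–Berge condition. -/
lemma tb_parity {V : Type} [DecidableEq V] (G : SimpleGraph V) (T : Finset V) (l : ℕ)
    (heven : Even (T.card + l))
    (hcond : ∀ (A : Finset V) (F : Finset (Finset V)), A ⊆ T → (∀ O ∈ F, Odd O.card) →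
      (∀ O ∈ F, ∀ O' ∈ F, O ≠ O' → Disjoint O O') → (∀ O ∈ F, O ⊆ T \ A) →
      (∀ O ∈ F, ∀ x ∈ O, ∀ y ∈ T, G.Adj x y → y ∈ O ∨ y ∈ A) → A.card + l + 2 ≤ F.card → False) :
    ∃ (U : Finset V) (m : V → V), U ⊆ T ∧ U.card ≤ l ∧
      ∀ x ∈ T \ U, m x ∈ T \ U ∧ m (m x) = x ∧ G.Adj x (m x) := by
  apply H168DD.tutte_berge G T l heven
  intro A F hAT hodd hdisj hsub hcl
  by_contra hcon
  push Not at hcon
  have h1 : F.card = A.card + l + 1 := by
    by_contra hne
    exact hcond A F hAT hodd hdisj hsub hcl (by omega)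
  set W := (T \ A) \ F.biUnion id with hW
  have hbu : F.biUnion id ⊆ T \ A := by
    intro x hx
    obtain ⟨O, hO, hxO⟩ := mem_biUnion.1 hx
    exact hsub O hO hxO
  have hWc : W.card + (F.biUnion id).card = (T \ A).card := card_sdiff_add_card_eq_card hbu
  have hTA : (T \ A).card + A.card = T.card := card_sdiff_add_card_eq_card hAT
  have hbc : (F.biUnion id).card = ∑ O ∈ F, O.card :=
    card_biUnion (fun O hO O' hO' h => hdisj O hO O' hO' h)
  have hpar : (∑ O ∈ F, O.card) % 2 = F.card % 2 := by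
    rw [Finset.sum_nat_mod]
    have : ∑ O ∈ F, O.card % 2 = ∑ O ∈ F, 1 :=
      Finset.sum_congr rfl (fun O hO => Nat.odd_iff.1 (hodd O hO))
    rw [this]; simp
  have hWodd : Odd W.card := by
    rw [Nat.odd_iff]; obtain ⟨r, hr⟩ := heven; omega
  have hWF : W ∉ F := by
    intro h
    obtain ⟨x, hx⟩ := card_pos.1 hWodd.pos
    have := (mem_sdiff.1 hx).2
    exact this (mem_biUnion.2 ⟨W, h, hx⟩)
  have hWd : ∀ O ∈ F, Disjoint W O := by
    intro O hO
    rw [Finset.disjoint_left]
    intro x hx hxO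
    exact (mem_sdiff.1 hx).2 (mem_biUnion.2 ⟨O, hO, hxO⟩)
  refine hcond A (insert W F) hAT ?_ ?_ ?_ ?_ ?_
  · intro O hO
    rcases mem_insert.1 hO with rfl | hO
    · exact hWodd
    · exact hodd O hO
  · intro O hO O' hO' hne
    rcases mem_insert.1 hO with rfl | hO <;> rcases mem_insert.1 hO' with rfl | hO'
    · exact absurd rfl hne
    · exact hWd _ hO'
    · exact (hWd _ hO).symm
    · exact hdisj O hO O' hO' hne
  · intro O hO
    rcases mem_insert.1 hO with rfl | hO
    · exact sdiff_subset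
    · exact hsub O hO
  · intro O hO x hx y hy hxy
    rcases mem_insert.1 hO with rfl | hO
    · by_contra hno
      push Not at hno
      have hyW : y ∈ F.biUnion id := by
        by_contra hyn
        exact hno.1 (mem_sdiff.2 ⟨mem_sdiff.2 ⟨hy, hno.2⟩, hyn⟩)
      obtain ⟨O, hO, hyO⟩ := mem_biUnion.1 hyW
      have hxT := mem_sdiff.1 (mem_sdiff.1 hx).1
      rcases hcl O hO y hyO x hxT.1 hxy.symm with h | h
      · exact (mem_sdiff.1 hx).2 (mem_biUnion.2 ⟨O, hO, h⟩)
      · exact hxT.2 h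
    · exact hcl O hO x hx y hy hxy
  · rw [card_insert_of_notMem hWF]; omega

variable {V : Type} [Fintype V] [DecidableEq V] (G : SimpleGraph V) [DecidableRel G.Adj]

/-- a barrier: an independent of connectivity version -/
structure Barrier (X : Finset V) (F : Finset (Finset V)) : Prop where
  odd : ∀ O ∈ F, Odd #O
  disj : ∀ O ∈ F, ∀ O' ∈ F, O ≠ O' → Disjoint O O'
  out : ∀ O ∈ F, ∀ x ∈ O, x ∉ X
  closed : ∀ O ∈ F, ∀ x ∈ O, ∀ y, G.Adj x y → y ∈ O ∨ y ∈ X

theorem exists_barrier (hdeg : ∀ v, 0 < G.degree v) (r : ℕ)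
    (hcov : ∀ S ⊆ G.edgeFinset, IsEdgeCovering S → r ≤ #S) (h : Fintype.card V + 2 ≤ 2 * r) :
    ∃ (X : Finset V) (F : Finset (Finset V)), Barrier G X F ∧
      #X + 2 * r ≤ #F + Fintype.card V := by
  by_contra hcon
  push Not at hcon
  obtain ⟨U, m, -, hU, hm⟩ := tb_parity G univ (2 * r - Fintype.card V - 2)
    (by rw [card_univ, Nat.even_iff]; omega) (by
      intro A F _ h1 h2 h3 h4 h5
      have := hcon A F ⟨h1, h2, fun O hO x hx => (mem_sdiff.1 (h3 O hO hx)).2,
        fun O hO x hx y hxy => h4 O hO x hx y (mem_univ y) hxy⟩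
      omega)
  choose nb hnb using fun v => (G.degree_pos_iff_exists_adj v).1 (hdeg v)
  set S : Finset (Sym2 V) := (univ \ U).image (fun x => s(x, m x)) ∪ U.image (fun u => s(u, nb u))
    with hS
  have hSsub : S ⊆ G.edgeFinset := by
    intro e he
    rw [hS, mem_union, mem_image, mem_image] at he
    rw [SimpleGraph.mem_edgeFinset]
    rcases he with ⟨x, hx, rfl⟩ | ⟨u, _, rfl⟩
    · exact (hm x hx).2.2
    · exact hnb u
  have hScov : IsEdgeCovering S := by
    intro v
    by_cases hv : v ∈ U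
    · exact ⟨s(v, nb v), mem_union_right _ (mem_image_of_mem _ hv), Sym2.mem_mk_left _ _⟩
    · exact ⟨s(v, m v), mem_union_left _ (mem_image_of_mem _ (mem_sdiff.2 ⟨mem_univ _, hv⟩)),
        Sym2.mem_mk_left _ _⟩
  have h1 := hcov S hSsub hScov
  have h2 : #S ≤ #((univ \ U).image (fun x => s(x, m x))) + #U :=
    (card_union_le _ _).trans (Nat.add_le_add_left card_image_le _)
  have h3 : 2 * #((univ \ U).image (fun x => s(x, m x))) ≤ #(univ \ U) := by
    refine mul_card_image_le_card _ 2 fun e he => ?_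
    obtain ⟨x, hx, rfl⟩ := mem_image.1 he
    obtain ⟨h4, h5, h6⟩ := hm x hx
    have h7 : ({x, m x} : Finset V) ⊆ (univ \ U).filter fun y => s(y, m y) = s(x, m x) := by
      intro y hy
      rw [mem_insert, mem_singleton] at hy
      rw [mem_filter]
      rcases hy with rfl | rfl
      · exact ⟨hx, rfl⟩
      · exact ⟨h4, by rw [h5, Sym2.eq_swap]⟩
    refine le_trans ?_ (card_le_card h7)
    rw [card_pair h6.ne]
  have h4 : #(univ \ U) + #U = Fintype.card V := by
    rw [card_sdiff_add_card_eq_card (subset_univ U), card_univ]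
  omega

end Pool.Agent.K6.H74.EC
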