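import Mathlib
import Pool.Agent.K6.H74.EC.Barrier

/-!
Counting edges at a barrier.
-/

set_option autoImplicit false
set_option linter.unusedSectionVars false

namespace Pool.Agent.K6.H74.EC

open Finset

variable {V : Type} [Fintype V] [DecidableEq V] (G : SimpleGraph V) [DecidableRel G.Adj]

/-- the number of ordered pairs of adjacent vertices -/
def dg (A B : Finset V) : ℕ := ∑ v ∈ A, ∑ w ∈ B, if G.Adj v w then 1 else 0

variable {G}

lemma dg_comm (A B : Finset V) : dg G A B = dg G B A := by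
  unfold dg
  rw [sum_comm]
  simp only [G.adj_comm]

lemma dg_univ (A : Finset V) : dg G A univ = ∑ v ∈ A, G.degree v := by
  unfold dg
  refine sum_congr rfl fun v _ => ?_
  rw [← SimpleGraph.card_neighborFinset_eq_degree, SimpleGraph.neighborFinset_eq_filter,
    card_filter]

lemma dg_union_right {A B C : Finset V} (h : Disjoint B C) :
    dg G A (B ∪ C) = dg G A B + dg G A C := by
  unfold dg
  rw [← sum_add_distrib]
  exact sum_congr rfl fun v _ => sum_union h

lemma dg_union_left {A B C : Finset V} (h : Disjoint A B) :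
    dg G (A ∪ B) C = dg G A C + dg G B C := by
  unfold dg
  exact sum_union h

lemma dg_mono {A A' B B' : Finset V} (h : A ⊆ A') (h' : B ⊆ B') : dg G A B ≤ dg G A' B' := by
  unfold dg
  calc ∑ v ∈ A, ∑ w ∈ B, (if G.Adj v w then 1 else 0)
      ≤ ∑ v ∈ A, ∑ w ∈ B', (if G.Adj v w then 1 else 0) :=
        sum_le_sum fun v _ => sum_le_sum_of_subset h'
    _ ≤ _ := sum_le_sum_of_subset h

lemma dg_eq_card (A B : Finset V) : dg G A B = #{p ∈ A ×ˢ B | G.Adj p.1 p.2} := by
  unfold dg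
  rw [card_filter, sum_product]

lemma dg_pos {A B : Finset V} : 0 < dg G A B ↔ ∃ v ∈ A, ∃ w ∈ B, G.Adj v w := by
  rw [dg_eq_card, card_pos]
  constructor
  · rintro ⟨p, hp⟩
    rw [mem_filter, mem_product] at hp
    exact ⟨p.1, hp.1.1, p.2, hp.1.2, hp.2⟩
  · rintro ⟨v, hv, w, hw, h⟩
    exact ⟨(v, w), mem_filter.2 ⟨mem_product.2 ⟨hv, hw⟩, h⟩⟩

lemma dg_eq_zero {A B : Finset V} : dg G A B = 0 ↔ ∀ v ∈ A, ∀ w ∈ B, ¬ G.Adj v w := by
  constructor
  · intro h v hv w hw hvw
    have := dg_pos.2 ⟨v, hv, w, hw, hvw⟩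
    omega
  · intro h
    by_contra hne
    obtain ⟨v, hv, w, hw, hvw⟩ := dg_pos.1 (Nat.pos_of_ne_zero hne)
    exact h v hv w hw hvw

lemma dg_self_even (A : Finset V) : Even (dg G A A) := by
  rw [dg_eq_card]
  set P := {p ∈ A ×ˢ A | G.Adj p.1 p.2} with hP
  rw [card_eq_sum_card_image (fun p : V × V => s(p.1, p.2)) P, sum_const_nat (m := 2)]
  · exact ⟨_, (by ring : _ * 2 = _ + _)⟩
  intro e he
  obtain ⟨p, hp, rfl⟩ := mem_image.1 he
  rw [hP, mem_filter, mem_product] at hp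
  have : P.filter (fun q => s(q.1, q.2) = s(p.1, p.2)) = {(p.1, p.2), (p.2, p.1)} := by
    ext q
    rw [mem_filter, hP, mem_filter, mem_product, mem_insert, mem_singleton, Sym2.eq_iff]
    constructor
    · rintro ⟨_, ⟨h1, h2⟩ | ⟨h1, h2⟩⟩
      · exact Or.inl (Prod.ext h1 h2)
      · exact Or.inr (Prod.ext h1 h2)
    · rintro (rfl | rfl)
      · exact ⟨hp, Or.inl ⟨rfl, rfl⟩⟩
      · exact ⟨⟨⟨hp.1.2, hp.1.1⟩, hp.2.symm⟩, Or.inr ⟨rfl, rfl⟩⟩
  rw [this, card_pair]
  intro h
  have := (Prod.mk.inj h).1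
  exact hp.2.ne this

/-- the remaining vertices -/
def rest (X : Finset V) (F : Finset (Finset V)) : Finset V := univ \ (X ∪ F.biUnion id)

variable {X : Finset V} {F : Finset (Finset V)}

lemma part (hb : Barrier G X F) (g : V → ℕ) :
    ∑ v, g v = ∑ v ∈ X, g v + ∑ O ∈ F, ∑ v ∈ O, g v + ∑ v ∈ rest X F, g v := by
  have h1 : ∑ v ∈ F.biUnion id, g v = ∑ O ∈ F, ∑ v ∈ O, g v :=
    sum_biUnion fun O hO O' hO' h => hb.disj O hO O' hO' h
  have h2 : Disjoint X (F.biUnion id) := by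
    rw [disjoint_left]
    intro x hx hx'
    obtain ⟨O, hO, hxO⟩ := mem_biUnion.1 hx'
    exact hb.out O hO x hxO hx
  rw [← h1, ← sum_union h2, rest, add_comm, sum_sdiff (subset_univ _)]

lemma card_part (hb : Barrier G X F) :
    Fintype.card V = #X + ∑ O ∈ F, #O + #(rest X F) := by
  have := part hb (fun _ => 1)
  simpa using this

/-- neighbours are inside or in `X` -/
def Closed (G : SimpleGraph V) (X O : Finset V) : Prop :=
  (∀ x ∈ O, x ∉ X) ∧ ∀ x ∈ O, ∀ y, G.Adj x y → y ∈ O ∨ y ∈ X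

lemma closed_mem (hb : Barrier G X F) {O : Finset V} (hO : O ∈ F) : Closed G X O :=
  ⟨hb.out O hO, hb.closed O hO⟩

lemma closed_rest (hb : Barrier G X F) : Closed G X (rest X F) := by
  constructor
  · intro x hx hxX
    rw [rest, mem_sdiff] at hx
    exact hx.2 (mem_union_left _ hxX)
  · intro x hx y hxy
    by_contra hcon
    push Not at hcon
    have h1 : y ∈ F.biUnion id := by
      by_contra h
      refine hcon.1 ?_
      rw [rest, mem_sdiff, mem_union]
      exact ⟨mem_univ _, fun h' => h'.elim hcon.2 h⟩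
    obtain ⟨O, hO, hyO⟩ := mem_biUnion.1 h1
    rw [rest, mem_sdiff, mem_union] at hx
    rcases hb.closed O hO y hyO x hxy.symm with h | h
    · exact hx.2 (Or.inr (mem_biUnion.2 ⟨O, hO, h⟩))
    · exact hx.2 (Or.inl h)

lemma Closed.sum_degree {O : Finset V} (h : Closed G X O) :
    ∑ v ∈ O, G.degree v = dg G O O + dg G O X := by
  have hd : Disjoint O X := disjoint_left.2 h.1
  rw [← dg_union_right hd, ← dg_univ]
  unfold dg
  refine sum_congr rfl fun v hv => ?_
  symm
  refine sum_subset (subset_univ _) fun w _ hw => ?_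
  rw [if_neg]
  intro hvw
  exact hw (mem_union.2 (h.2 v hv w hvw))

lemma all_of_closed (hconn : G.Preconnected) {S : Finset V} (hS : S.Nonempty)
    (h : ∀ x ∈ S, ∀ y, G.Adj x y → y ∈ S) (v : V) : v ∈ S := by
  obtain ⟨u, hu⟩ := hS
  obtain ⟨w⟩ := hconn u v
  induction w with
  | nil => exact hu
  | cons hadj _ ih => exact ih (h _ hu _ hadj)

lemma Closed.dg_pos (hconn : G.Preconnected) (hX : X.Nonempty) {O : Finset V}
    (h : Closed G X O) (hO : O.Nonempty) : 0 < dg G O X := by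
  by_contra hcon
  have h0 : dg G O X = 0 := by omega
  rw [dg_eq_zero] at h0
  obtain ⟨x, hx⟩ := hX
  have := all_of_closed hconn hO (fun y hy z hyz => by
    rcases h.2 y hy z hyz with h' | h'
    · exact h'
    · exact absurd hyz (h0 y hy z h')) x
  exact h.1 x this hx

lemma Closed.two_le (hconn : G.Preconnected) (hX : X.Nonempty) (hdeg : ∀ v, 2 ≤ G.degree v)
    {O : Finset V} (h : Closed G X O) (hO : O.Nonempty) :
    2 * #O + 2 ≤ ∑ v ∈ O, G.degree v + dg G O X := by
  have h1 := h.dg_pos hconn hX hO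
  have h2 := h.sum_degree
  obtain ⟨k, hk⟩ := dg_self_even (G := G) O
  have h3 : 2 * #O ≤ ∑ v ∈ O, G.degree v := by
    have := card_nsmul_le_sum O (fun v => G.degree v) 2 fun v _ => hdeg v
    rw [smul_eq_mul] at this
    omega
  omega

lemma two_m (hb : Barrier G X F) :
    2 * #G.edgeFinset = dg G X X + ∑ O ∈ F, (∑ v ∈ O, G.degree v + dg G O X) +
      (∑ v ∈ rest X F, G.degree v + dg G (rest X F) X) := by
  rw [← G.sum_degrees_eq_twice_card_edges, part hb (fun v => G.degree v)]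
  have h1 : ∑ v ∈ X, G.degree v = dg G X X + ∑ O ∈ F, dg G O X + dg G (rest X F) X := by
    rw [← dg_univ]
    have h2 : dg G X univ = ∑ w, ∑ v ∈ X, if G.Adj w v then 1 else 0 := by
      rw [dg_comm]; rfl
    rw [h2, part hb]
    rfl
  rw [h1, sum_add_distrib]
  omega

/-- the main inequality -/
theorem main_ineq (hconn : G.Preconnected) (hX : X.Nonempty) (hdeg : ∀ v, 2 ≤ G.degree v)
    (hb : Barrier G X F) (r : ℕ) (hr : #X + 2 * r ≤ #F + Fintype.card V) :
    2 * r ≤ #G.edgeFinset ∧ (#G.edgeFinset = 2 * r → dg G X X = 0 ∧ rest X F = ∅ ∧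
      ∀ O ∈ F, ∑ v ∈ O, G.degree v + dg G O X = 2 * #O + 2) := by
  have hne : ∀ O ∈ F, O.Nonempty := fun O hO => card_pos.1 (hb.odd O hO).pos
  have h1 : ∀ O ∈ F, 2 * #O + 2 ≤ ∑ v ∈ O, G.degree v + dg G O X := fun O hO =>
    (closed_mem hb hO).two_le hconn hX hdeg (hne O hO)
  have h2 := sum_le_sum h1
  have h3 : ∑ O ∈ F, (2 * #O + 2) = 2 * ∑ O ∈ F, #O + 2 * #F := by
    rw [sum_add_distrib, ← mul_sum, sum_const, smul_eq_mul, mul_comm 2 (#F)]
  have h4 := two_m hb
  have h5 := card_part hb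
  have h6 : 2 * #(rest X F) ≤ ∑ v ∈ rest X F, G.degree v + dg G (rest X F) X := by
    rcases (rest X F).eq_empty_or_nonempty with h | h
    · rw [h]; simp
    · have := (closed_rest hb).two_le hconn hX hdeg h
      omega
  refine ⟨by omega, fun hm => ?_⟩
  refine ⟨by omega, ?_, ?_⟩
  · by_contra hcon
    have := (closed_rest hb).two_le hconn hX hdeg (nonempty_iff_ne_empty.2 hcon)
    omega
  · have h7 : ∑ O ∈ F, (2 * #O + 2) = ∑ O ∈ F, (∑ v ∈ O, G.degree v + dg G O X) := by omega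
    intro O hO
    exact ((sum_eq_sum_iff_of_le h1).1 h7 O hO).symm

theorem card_F_le_one (hconn : G.Preconnected) (hb : Barrier G ∅ F) : #F ≤ 1 := by
  rw [Finset.card_le_one]
  intro O hO O' hO'
  by_contra hne
  have h1 : ∀ O ∈ F, ∀ v, v ∈ O := fun O hO v =>
    all_of_closed hconn (card_pos.1 (hb.odd O hO).pos) (fun x hx y hxy =>
      (hb.closed O hO x hx y hxy).resolve_right (notMem_empty _)) v
  obtain ⟨v, hv⟩ := card_pos.1 (hb.odd O hO).pos
  exact disjoint_left.1 (hb.disj O hO O' hO' hne) hv (h1 O' hO' v)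

end Pool.Agent.K6.H74.EC
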