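import Mathlib
import Pool.Agent.K6.H74.EC.Count

/-!
Counting edge coverings at an extremal barrier.
-/

set_option autoImplicit false
set_option linter.unusedSectionVars false

namespace Pool.Agent.K6.H74.EC

open Finset
open Pool.Agent.Results.MP_a87573_co.DistinctRoots

variable {V : Type} [Fintype V] [DecidableEq V] (G : SimpleGraph V) [DecidableRel G.Adj]

/-- edges touching `O` -/
def touch (O : Finset V) : Finset (Sym2 V) := {e ∈ G.edgeFinset | ∃ v ∈ O, v ∈ e}

/-- sets of edges at `O` covering `O` -/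
def loc (O : Finset V) : Finset (Finset (Sym2 V)) :=
  {T ∈ (touch G O).powerset | ∀ v ∈ O, ∃ e ∈ T, v ∈ e}

variable {G} {X : Finset V} {F : Finset (Finset V)}

lemma two_card_image (A : Finset V) :
    2 * #(({p ∈ A ×ˢ A | G.Adj p.1 p.2} : Finset (V × V)).image fun p => s(p.1, p.2)) ≤
      dg G A A := by
  rw [dg_eq_card]
  refine mul_card_image_le_card _ 2 fun e he => ?_
  obtain ⟨p, hp, rfl⟩ := mem_image.1 he
  rw [mem_filter, mem_product] at hp
  have h7 : ({(p.1, p.2), (p.2, p.1)} : Finset (V × V)) ⊆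
      ({p ∈ A ×ˢ A | G.Adj p.1 p.2} : Finset (V × V)).filter
        fun y => s(y.1, y.2) = s(p.1, p.2) := by
    intro y hy
    rw [mem_insert, mem_singleton] at hy
    rw [mem_filter, mem_filter, mem_product]
    rcases hy with rfl | rfl
    · exact ⟨⟨hp.1, hp.2⟩, rfl⟩
    · exact ⟨⟨⟨hp.1.2, hp.1.1⟩, hp.2.symm⟩, Sym2.eq_swap⟩
  refine le_trans ?_ (card_le_card h7)
  rw [card_pair]
  intro h
  exact hp.2.ne (Prod.mk.inj h).1

lemma touch_subset {O : Finset V} (h : Closed G X O) :
    touch G O ⊆ (({p ∈ O ×ˢ O | G.Adj p.1 p.2} : Finset (V × V)).image fun p => s(p.1, p.2)) ∪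
      (({p ∈ O ×ˢ X | G.Adj p.1 p.2} : Finset (V × V)).image fun p => s(p.1, p.2)) := by
  intro e he
  rw [touch, mem_filter] at he
  obtain ⟨he, v, hv, hve⟩ := he
  obtain ⟨w, rfl⟩ := Sym2.mem_iff_exists.1 hve
  rw [SimpleGraph.mem_edgeFinset, SimpleGraph.mem_edgeSet] at he
  rw [mem_union, mem_image, mem_image]
  rcases h.2 v hv w he with hw | hw
  · exact Or.inl ⟨(v, w), mem_filter.2 ⟨mem_product.2 ⟨hv, hw⟩, he⟩, rfl⟩
  · exact Or.inr ⟨(v, w), mem_filter.2 ⟨mem_product.2 ⟨hv, hw⟩, he⟩, rfl⟩

lemma card_touch_le {O : Finset V} (h : Closed G X O)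
    (hO : ∑ v ∈ O, G.degree v + dg G O X = 2 * #O + 2) :
    #(touch G O) ≤ #O + 1 := by
  have h3 := card_le_card (touch_subset h)
  have h4 := h3.trans (card_union_le _ _)
  have h5 := two_card_image (G := G) O
  have h6 : #(({p ∈ O ×ˢ X | G.Adj p.1 p.2} : Finset (V × V)).image fun p => s(p.1, p.2)) ≤
      dg G O X := by
    rw [dg_eq_card]; exact card_image_le
  have h7 := h.sum_degree
  obtain ⟨k, hk⟩ := dg_self_even (G := G) O
  omega

lemma card_loc_le_pow (O : Finset V) : #(loc G O) ≤ 2 ^ #(touch G O) := by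
  rw [← card_powerset]
  exact card_le_card (filter_subset _ _)

lemma loc_single (a : V) (ha : G.degree a = 2) : #(loc G {a}) ≤ 3 := by
  have h1 : touch G {a} = G.incidenceFinset a := by
    ext e
    simp only [touch, mem_filter, mem_singleton, exists_eq_left, SimpleGraph.mem_edgeFinset]
    rw [SimpleGraph.mem_incidenceFinset]
    rfl
  have h2 : loc G {a} ⊆ ((touch G {a}).powerset).erase ∅ := by
    intro T hT
    rw [loc, mem_filter] at hT
    rw [mem_erase]
    refine ⟨?_, hT.1⟩
    rintro rfl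
    obtain ⟨e, he, -⟩ := hT.2 a (mem_singleton_self a)
    exact notMem_empty _ he
  refine (card_le_card h2).trans ?_
  rw [card_erase_of_mem (empty_mem_powerset _), card_powerset, h1,
    SimpleGraph.card_incidenceFinset_eq_degree, ha]
  norm_num

lemma loc_three {O : Finset V} (h : Closed G X O) (h3 : #O = 3) (h1 : dg G O X = 1) :
    #(loc G O) ≤ 9 := by
  rw [dg_eq_card, card_eq_one] at h1
  obtain ⟨⟨v, x⟩, h1⟩ := h1
  have hvx : (v, x) ∈ ({p ∈ O ×ˢ X | G.Adj p.1 p.2} : Finset (V × V)) := by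
    rw [h1]; exact mem_singleton_self _
  rw [mem_filter, mem_product] at hvx
  obtain ⟨⟨hv, hx⟩, hadj⟩ := hvx
  simp only at hv hx hadj
  have h4 : #(O.erase v) = 2 := by rw [card_erase_of_mem hv, h3]
  obtain ⟨a, b, hab, hO⟩ := card_eq_two.1 h4
  have ha : a ∈ O.erase v := by rw [hO]; simp
  have hb : b ∈ O.erase v := by rw [hO]; simp
  rw [mem_erase] at ha hb
  have hxa : x ≠ a := fun h' => h.1 a ha.2 (h' ▸ hx)
  have hxb : x ≠ b := fun h' => h.1 b hb.2 (h' ▸ hx)
  have hO' : ∀ u ∈ O, u = v ∨ u = a ∨ u = b := by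
    intro u hu
    by_cases huv : u = v
    · exact Or.inl huv
    · have : u ∈ O.erase v := mem_erase.2 ⟨huv, hu⟩
      rw [hO, mem_insert, mem_singleton] at this
      exact Or.inr this
  have htouch : ∀ e ∈ touch G O, e = s(v, a) ∨ e = s(v, b) ∨ e = s(a, b) ∨ e = s(v, x) := by
    intro e he
    have := touch_subset h he
    rw [mem_union, mem_image, mem_image] at this
    rcases this with ⟨p, hp, rfl⟩ | ⟨p, hp, rfl⟩
    · rw [mem_filter, mem_product] at hp
      have h5 := hp.2.ne
      rcases hO' _ hp.1.1 with h6 | h6 | h6 <;> rcases hO' _ hp.1.2 with h7 | h7 | h7 <;>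
        rw [h6, h7] at h5 ⊢ <;> simp [Sym2.eq_swap] at h5 ⊢
    · rw [h1, mem_singleton] at hp
      rw [hp]; simp
  set f : Finset (Sym2 V) → Bool × Bool × Bool × Bool := fun T =>
    (decide (s(v, a) ∈ T), decide (s(v, b) ∈ T), decide (s(a, b) ∈ T), decide (s(v, x) ∈ T))
    with hf
  set Q : Finset (Bool × Bool × Bool × Bool) :=
    univ.filter fun b => (b.1 || b.2.1 || b.2.2.2) && (b.1 || b.2.2.1) && (b.2.1 || b.2.2.1)
    with hQ
  have hQc : #Q = 9 := by rw [hQ]; decide
  rw [← hQc]
  refine card_le_card_of_injOn f ?_ ?_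
  · intro T hT
    have hT' := mem_coe.1 hT
    rw [loc, mem_filter, mem_powerset] at hT'
    obtain ⟨hT1, hT2⟩ := hT'
    rw [mem_coe, hQ, mem_filter]
    refine ⟨mem_univ _, ?_⟩
    rw [hf]
    simp only [Bool.and_eq_true, Bool.or_eq_true, decide_eq_true_eq]
    refine ⟨⟨?_, ?_⟩, ?_⟩
    · obtain ⟨e, he, hve⟩ := hT2 v hv
      rcases htouch e (hT1 he) with rfl | rfl | rfl | rfl
      · exact Or.inl (Or.inl he)
      · exact Or.inl (Or.inr he)
      · rw [Sym2.mem_iff] at hve
        rcases hve with h' | h'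
        · exact absurd h'.symm ha.1
        · exact absurd h'.symm hb.1
      · exact Or.inr he
    · obtain ⟨e, he, hve⟩ := hT2 a ha.2
      rcases htouch e (hT1 he) with rfl | rfl | rfl | rfl
      · exact Or.inl he
      · rw [Sym2.mem_iff] at hve
        rcases hve with h' | h'
        · exact absurd h' ha.1
        · exact absurd h' hab
      · exact Or.inr he
      · rw [Sym2.mem_iff] at hve
        rcases hve with h' | h'
        · exact absurd h' ha.1
        · exact absurd h'.symm hxa
    · obtain ⟨e, he, hve⟩ := hT2 b hb.2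
      rcases htouch e (hT1 he) with rfl | rfl | rfl | rfl
      · rw [Sym2.mem_iff] at hve
        rcases hve with h' | h'
        · exact absurd h' hb.1
        · exact absurd h'.symm hab
      · exact Or.inl he
      · exact Or.inr he
      · rw [Sym2.mem_iff] at hve
        rcases hve with h' | h'
        · exact absurd h' hb.1
        · exact absurd h'.symm hxb
  · intro T hT T' hT' hTT
    have hT1 := (mem_powerset.1 (mem_filter.1 (mem_coe.1 hT)).1)
    have hT2 := (mem_powerset.1 (mem_filter.1 (mem_coe.1 hT')).1)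
    simp only [hf, Prod.mk.injEq, decide_eq_decide] at hTT
    obtain ⟨e1, e2, e3, e4⟩ := hTT
    ext e
    constructor
    · intro he
      rcases htouch e (hT1 he) with rfl | rfl | rfl | rfl
      · exact e1.1 he
      · exact e2.1 he
      · exact e3.1 he
      · exact e4.1 he
    · intro he
      rcases htouch e (hT2 he) with rfl | rfl | rfl | rfl
      · exact e1.2 he
      · exact e2.2 he
      · exact e3.2 he
      · exact e4.2 he

lemma pow_aux (k : ℕ) : 2 ^ (k + 4) ≤ 3 ^ (k + 3) := by
  induction k with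
  | zero => norm_num
  | succ k ih =>
    calc 2 ^ (k + 1 + 4) = 2 ^ (k + 4) * 2 := by ring
      _ ≤ 3 ^ (k + 3) * 3 := by omega
      _ = 3 ^ (k + 1 + 3) := by ring

lemma pow_aux' (k : ℕ) : 2 ^ (k + 6) ≤ 3 ^ (k + 4) := by
  induction k with
  | zero => norm_num
  | succ k ih =>
    calc 2 ^ (k + 1 + 6) = 2 ^ (k + 6) * 2 := by ring
      _ ≤ 3 ^ (k + 4) * 3 := by omega
      _ = 3 ^ (k + 1 + 4) := by ring

lemma loc_le (hconn : G.Preconnected) (hX : X.Nonempty) (hdeg : ∀ v, 2 ≤ G.degree v)
    {O : Finset V} (h : Closed G X O) (hodd : Odd #O)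
    (hO : ∑ v ∈ O, G.degree v + dg G O X = 2 * #O + 2) :
    #(loc G O) ≤ 3 ^ #{v ∈ O | G.degree v = 2} := by
  have hne : O.Nonempty := card_pos.1 hodd.pos
  have h1 := h.dg_pos hconn hX hne
  have h2 := h.sum_degree
  obtain ⟨k, hk⟩ := dg_self_even (G := G) O
  have h3 : 2 * #O + #{v ∈ O | ¬ G.degree v = 2} ≤ ∑ v ∈ O, G.degree v := by
    have : ∑ v ∈ O, (2 + if ¬ G.degree v = 2 then 1 else 0) ≤ ∑ v ∈ O, G.degree v := by
      refine sum_le_sum fun v _ => ?_
      have := hdeg v
      split_ifs <;> omega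
    rw [sum_add_distrib, sum_const, smul_eq_mul, ← card_filter] at this
    omega
  have h4 : #{v ∈ O | G.degree v = 2} + #{v ∈ O | ¬ G.degree v = 2} = #O :=
    card_filter_add_card_filter_not _
  have h5 : dg G O X ≤ 2 := by omega
  have h6 := card_touch_le h hO
  have h7 := (card_loc_le_pow (G := G) O).trans (Nat.pow_le_pow_right (by norm_num) h6)
  obtain ⟨j, hj⟩ := hodd
  rcases (by omega : dg G O X = 1 ∨ dg G O X = 2) with h8 | h8
  · -- one edge to `X`
    rcases (by omega : j = 0 ∨ j = 1 ∨ 2 ≤ j) with rfl | rfl | hj2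
    · exfalso
      have h9 : dg G O O = 0 := by
        obtain ⟨a, ha⟩ := card_eq_one.1 hj
        rw [dg_eq_zero, ha]
        intro v hv w hw
        rw [mem_singleton] at hv hw
        rw [hv, hw]
        exact G.irrefl
      omega
    · refine (loc_three h (by omega) h8).trans ?_
      have : 2 ≤ #{v ∈ O | G.degree v = 2} := by omega
      calc 9 = 3 ^ 2 := by norm_num
        _ ≤ _ := Nat.pow_le_pow_right (by norm_num) this
    · refine h7.trans ?_
      have h9 : #O - 1 ≤ #{v ∈ O | G.degree v = 2} := by omega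
      refine le_trans ?_ (Nat.pow_le_pow_right (by norm_num) h9)
      have := pow_aux' (#O - 5)
      rw [show #O - 5 + 6 = #O + 1 by omega, show #O - 5 + 4 = #O - 1 by omega] at this
      exact this
  · have h9 : #{v ∈ O | G.degree v = 2} = #O := by omega
    rw [h9]
    rcases (by omega : j = 0 ∨ 1 ≤ j) with rfl | hj2
    · obtain ⟨a, rfl⟩ := card_eq_one.1 hj
      have ha : G.degree a = 2 := by
        have : a ∈ ({v ∈ ({a} : Finset V) | G.degree v = 2} : Finset V) := by
          have h10 := eq_of_subset_of_card_le (filter_subset (fun v => G.degree v = 2) {a})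
            (le_of_eq h9.symm)
          rw [h10]; exact mem_singleton_self a
        exact (mem_filter.1 this).2
      have := loc_single a ha
      rw [hj]; omega
    · refine h7.trans ?_
      have := pow_aux (#O - 3)
      rw [show #O - 3 + 4 = #O + 1 by omega, show #O - 3 + 3 = #O by omega] at this
      exact this

/-- sets of edges covering everything outside `X` -/
def outCov (G : SimpleGraph V) [DecidableRel G.Adj] (X : Finset V) : Finset (Finset (Sym2 V)) :=
  {S ∈ G.edgeFinset.powerset | ∀ v, v ∉ X → ∃ e ∈ S, v ∈ e}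

theorem outCov_le (hconn : G.Preconnected) (hX : X.Nonempty) (hdeg : ∀ v, 2 ≤ G.degree v)
    (hb : Barrier G X F) (h0 : dg G X X = 0) (hrest : rest X F = ∅)
    (hO : ∀ O ∈ F, ∑ v ∈ O, G.degree v + dg G O X = 2 * #O + 2) :
    #(outCov G X) ≤ 3 ^ #{v | G.degree v = 2} := by
  have h1 : #(outCov G X) ≤ #(F.pi fun O => loc G O) := by
    refine card_le_card_of_injOn (fun S O _ => S.filter fun e => ∃ v ∈ O, v ∈ e) ?_ ?_
    · intro S hS
      have hS' := mem_coe.1 hS
      rw [outCov, mem_filter, mem_powerset] at hS'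
      rw [mem_coe, mem_pi]
      intro O hOF
      rw [loc, mem_filter, mem_powerset]
      refine ⟨?_, ?_⟩
      · intro e he
        rw [mem_filter] at he
        rw [touch, mem_filter]
        exact ⟨hS'.1 he.1, he.2⟩
      · intro v hv
        obtain ⟨e, he, hve⟩ := hS'.2 v (hb.out O hOF v hv)
        exact ⟨e, mem_filter.2 ⟨he, v, hv, hve⟩, hve⟩
    · intro S hS S' hS' hSS
      have hS1 := mem_powerset.1 (mem_filter.1 (mem_coe.1 hS)).1
      have hS2 := mem_powerset.1 (mem_filter.1 (mem_coe.1 hS')).1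
      have key : ∀ e ∈ G.edgeFinset, ∃ O ∈ F, ∃ v ∈ O, v ∈ e := by
        intro e he
        induction e with
        | h p q =>
          rw [SimpleGraph.mem_edgeFinset, SimpleGraph.mem_edgeSet] at he
          have hpq : p ∉ X ∨ q ∉ X := by
            by_contra hcon
            push Not at hcon
            exact (dg_eq_zero.1 h0) p hcon.1 q hcon.2 he
          have hmem : ∀ v, v ∉ X → ∃ O ∈ F, v ∈ O := by
            intro v hv
            have hv' : v ∉ rest X F := by rw [hrest]; exact notMem_empty v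
            rw [rest, mem_sdiff] at hv'
            push Not at hv'
            have := hv' (mem_univ v)
            rw [mem_union, mem_biUnion] at this
            rcases this with h' | h'
            · exact absurd h' hv
            · exact h'
          rcases hpq with h' | h'
          · obtain ⟨O, hOF, hpO⟩ := hmem p h'
            exact ⟨O, hOF, p, hpO, Sym2.mem_mk_left _ _⟩
          · obtain ⟨O, hOF, hqO⟩ := hmem q h'
            exact ⟨O, hOF, q, hqO, Sym2.mem_mk_right _ _⟩
      have key2 : ∀ e, (e ∈ S ↔ e ∈ S') := by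
        intro e
        by_cases he : e ∈ G.edgeFinset
        · obtain ⟨O, hOF, hv⟩ := key e he
          have := congrFun (congrFun hSS O) hOF
          simp only at this
          have h3 : e ∈ (S.filter fun e => ∃ v ∈ O, v ∈ e) ↔
              e ∈ (S'.filter fun e => ∃ v ∈ O, v ∈ e) := by rw [this]
          rw [mem_filter, mem_filter] at h3
          exact ⟨fun h => (h3.1 ⟨h, hv⟩).1, fun h => (h3.2 ⟨h, hv⟩).1⟩
        · exact ⟨fun h => absurd (hS1 h) he, fun h => absurd (hS2 h) he⟩
      ext e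
      exact key2 e
  refine h1.trans ?_
  rw [card_pi]
  have h2 : ∏ O ∈ F, #(loc G O) ≤ ∏ O ∈ F, 3 ^ #{v ∈ O | G.degree v = 2} :=
    prod_le_prod' fun O hOF => loc_le hconn hX hdeg (closed_mem hb hOF) (hb.odd O hOF) (hO O hOF)
  refine h2.trans ?_
  rw [prod_pow_eq_pow_sum]
  refine Nat.pow_le_pow_right (by norm_num) ?_
  rw [← card_biUnion]
  · apply card_le_card
    intro v hv
    rw [mem_biUnion] at hv
    obtain ⟨O, _, hvO⟩ := hv
    rw [mem_filter] at hvO
    rw [mem_filter]
    exact ⟨mem_univ _, hvO.2⟩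
  · intro O hOF O' hOF' hne
    exact disjoint_of_subset_left (filter_subset _ _)
      (disjoint_of_subset_right (filter_subset _ _) (hb.disj O hOF O' hOF' hne))

theorem count_lt (hconn : G.Preconnected) (hX : X.Nonempty) (hdeg : ∀ v, 2 ≤ G.degree v)
    (hb : Barrier G X F) (h0 : dg G X X = 0) (hrest : rest X F = ∅)
    (hO : ∀ O ∈ F, ∑ v ∈ O, G.degree v + dg G O X = 2 * #O + 2) :
    #{S ∈ G.edgeFinset.powerset | IsEdgeCovering S} < 3 ^ #{v | G.degree v = 2} := by
  refine lt_of_lt_of_le ?_ (outCov_le hconn hX hdeg hb h0 hrest hO)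
  apply card_lt_card
  rw [ssubset_iff_of_subset]
  · obtain ⟨x, hx⟩ := hX
    refine ⟨{e ∈ G.edgeFinset | x ∉ e}, ?_, ?_⟩
    · rw [outCov, mem_filter, mem_powerset]
      refine ⟨filter_subset _ _, fun v hv => ?_⟩
      have h1 : 1 < #(G.neighborFinset v) := by
        rw [SimpleGraph.card_neighborFinset_eq_degree]; exact hdeg v
      obtain ⟨w, hw, hwx⟩ := exists_mem_ne h1 x
      rw [SimpleGraph.mem_neighborFinset] at hw
      refine ⟨s(v, w), ?_, Sym2.mem_mk_left _ _⟩
      rw [mem_filter, SimpleGraph.mem_edgeFinset, SimpleGraph.mem_edgeSet]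
      refine ⟨hw, ?_⟩
      rw [Sym2.mem_iff]
      rintro (rfl | rfl)
      · exact hv hx
      · exact hwx rfl
    · rw [mem_filter]
      rintro ⟨_, h2⟩
      obtain ⟨e, he, hxe⟩ := h2 x
      exact (mem_filter.1 he).2 hxe
  · intro S hS
    rw [mem_filter] at hS
    rw [outCov, mem_filter]
    exact ⟨hS.1, fun v _ => hS.2 v⟩

end Pool.Agent.K6.H74.EC
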